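import Mathlib

/-!
# L-atoms among entire functions on `ℂ^n`: the product of the two coordinates of `ℂ^2`

The entire function `z ↦ z₀ z₁` on `ℂ^2` is an L-atom, but it is not the first component of any
injective holomorphic map `ℂ^2 → ℂ^2`, in particular not of any analytic automorphism of `ℂ^2`.
-/

set_option autoImplicit false

namespace Pool.Agent.Results.MP_cc4673_an.AtomNotCoordinate

open Filter Topology

/-- `h` has the L-property on the sequence `z`: every compact subset `K` of the image
`G_h = h (ℂ^n)` contains `h (z k)` for only finitely many `k`. -/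
def HasLProperty {n : ℕ} (h : EuclideanSpace ℂ (Fin n) → ℂ) (z : ℕ → EuclideanSpace ℂ (Fin n)) :
    Prop :=
  ∀ K : Set ℂ, IsCompact K → K ⊆ Set.range h → {k : ℕ | h (z k) ∈ K}.Finite

/-- `(f, g)` is an ordered L-pair: `g` has the L-property on every sequence tending to infinity on
which `f` has the L-property. -/
def IsLPair {n : ℕ} (f g : EuclideanSpace ℂ (Fin n) → ℂ) : Prop :=
  ∀ z : ℕ → EuclideanSpace ℂ (Fin n), Tendsto (fun k => ‖z k‖) atTop atTop →
    HasLProperty f z → HasLProperty g z

/-- `α` is an L-atom: it is entire, non-constant, and every entire `f` for which `(f, α)` is an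
ordered L-pair is `φ ∘ α` for a function `φ` holomorphic on the image of `α`. -/
def IsLAtom {n : ℕ} (α : EuclideanSpace ℂ (Fin n) → ℂ) : Prop :=
  Differentiable ℂ α ∧ (¬ ∃ c : ℂ, ∀ z, α z = c) ∧
    ∀ f : EuclideanSpace ℂ (Fin n) → ℂ, Differentiable ℂ f → IsLPair f α →
      ∃ φ : ℂ → ℂ, DifferentiableOn ℂ φ (Set.range α) ∧ ∀ z, f z = φ (α z)

private lemma bounded_on_fibre {n : ℕ} {f α : EuclideanSpace ℂ (Fin n) → ℂ}
    (hf : Differentiable ℂ f) (h : IsLPair f α) (c : ℂ) :
    ∃ M : ℝ, ∀ z, α z = c → ‖f z‖ ≤ M := by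
  by_contra hcon
  push Not at hcon
  choose z hz hz' using fun k : ℕ => hcon (k : ℝ)
  have h1 : Tendsto (fun k => ‖z k‖) atTop atTop := by
    rw [tendsto_atTop]
    intro R
    obtain ⟨M, hM⟩ := (isCompact_closedBall (0 : EuclideanSpace ℂ (Fin n)) R).exists_bound_of_continuousOn
      hf.continuous.continuousOn
    filter_upwards [tendsto_natCast_atTop_atTop.eventually_ge_atTop M] with k hk
    by_contra hR
    push Not at hR
    have := hM (z k) (by simpa using hR.le)
    have := hz' k
    linarith
  have h2 : HasLProperty f z := by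
    intro K hK _
    obtain ⟨M, hM⟩ := hK.isBounded.exists_norm_le
    obtain ⟨N, hN⟩ := exists_nat_ge M
    refine (Set.finite_lt_nat N).subset ?_
    intro k hk
    have h3 := hM _ hk
    have h4 := hz' k
    have : (k : ℝ) < N := by linarith
    exact_mod_cast this
  have h3 := h z h1 h2 {c} isCompact_singleton (by
    rintro _ rfl
    exact ⟨z 0, hz 0⟩)
  apply Set.infinite_univ (α := ℕ)
  convert h3 using 1
  ext k
  simp [hz k]

private lemma diff_pair {u v : ℂ → ℂ} (hu : Differentiable ℂ u) (hv : Differentiable ℂ v) :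
    Differentiable ℂ (fun w => (WithLp.toLp 2 ![u w, v w] : EuclideanSpace ℂ (Fin 2))) := by
  rw [differentiable_euclidean]
  intro i
  fin_cases i
  · simpa using hu
  · simpa using hv

private lemma diff_coord (i : Fin 2) :
    Differentiable ℂ (fun z : EuclideanSpace ℂ (Fin 2) => z i) :=
  (EuclideanSpace.proj (𝕜 := ℂ) i).differentiable

private lemma range_mem_nhds {u : ℂ → ℂ} (hu : Differentiable ℂ u) (hi : Function.Injective u) :
    Set.range u ∈ 𝓝 (u 0) := by
  have ha : AnalyticAt ℂ u 0 := hu.analyticAt 0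
  rcases ha.eventually_constant_or_nhds_le_map_nhds with h | h
  · exfalso
    have h2 : ∀ᶠ w in 𝓝[≠] (0 : ℂ), u w = u 0 := h.filter_mono nhdsWithin_le_nhds
    obtain ⟨w, hw, hw'⟩ := (h2.and self_mem_nhdsWithin).exists
    exact hw' (hi hw)
  · exact h (Filter.range_mem_map)

theorem result :
    IsLAtom (fun z : EuclideanSpace ℂ (Fin 2) => z 0 * z 1) ∧
      ¬ ∃ F : EuclideanSpace ℂ (Fin 2) → EuclideanSpace ℂ (Fin 2),
        Differentiable ℂ F ∧ Function.Injective F ∧ ∀ z, F z 0 = z 0 * z 1 := by
  refine ⟨⟨(diff_coord 0).mul (diff_coord 1), ?_, ?_⟩, ?_⟩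
  · rintro ⟨c, hc⟩
    have h0 := hc (WithLp.toLp 2 ![0, 0])
    have h1 := hc (WithLp.toLp 2 ![1, 1])
    simp at h0 h1
    rw [← h0] at h1
    exact one_ne_zero h1
  · intro f hf hL
    have key : ∀ (c : ℂ) (u v : ℂ → ℂ), Differentiable ℂ u → Differentiable ℂ v →
        (∀ w, u w * v w = c) → ∀ w w', f (WithLp.toLp 2 ![u w, v w])
          = f (WithLp.toLp 2 ![u w', v w']) := by
      intro c u v hu hv huv w w'
      obtain ⟨M, hM⟩ := bounded_on_fibre hf hL c
      have hd := hf.comp (diff_pair hu hv)
      refine hd.apply_eq_apply_of_bounded ?_ w w'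
      refine isBounded_iff_forall_norm_le.2 ⟨M, ?_⟩
      rintro _ ⟨t, rfl⟩
      exact hM _ (by simpa using huv t)
    refine ⟨fun c => f (WithLp.toLp 2 ![1, c]), ?_, ?_⟩
    · exact (hf.comp (diff_pair (differentiable_const 1) differentiable_id)).differentiableOn
    · intro z
      have hz : z = WithLp.toLp 2 ![z 0, z 1] := by
        ext i
        fin_cases i <;> simp
      by_cases h0 : z 0 = 0
      · have h1 := key 0 (fun _ => 0) id (differentiable_const 0) differentiable_id (by simp) (z 1) 0
        have h2 := key 0 id (fun _ => 0) differentiable_id (differentiable_const 0) (by simp) 0 1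
        simp only [id] at h1 h2
        show f z = f (WithLp.toLp 2 ![1, z 0 * z 1])
        rw [h0, zero_mul, ← h2, ← h1, ← h0, ← hz]
      · have h1 := key (z 0 * z 1) Complex.exp (fun w => z 0 * z 1 * Complex.exp (-w))
          Complex.differentiable_exp (by fun_prop) (by
            intro w
            rw [Complex.exp_neg]
            have := Complex.exp_ne_zero w
            field_simp) (Complex.log (z 0)) 0
        have h2 : z 0 * z 1 * Complex.exp (-Complex.log (z 0)) = z 1 := by
          rw [Complex.exp_neg, Complex.exp_log h0]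
          field_simp
        simp only [h2, Complex.exp_log h0, Complex.exp_zero, neg_zero, mul_one] at h1
        show f z = f (WithLp.toLp 2 ![1, z 0 * z 1])
        rw [← h1, ← hz]
  · rintro ⟨F, hF, hinj, hF0⟩
    set u : ℂ → ℂ := fun w => F (WithLp.toLp 2 ![w, 0]) 1 with hu
    set v : ℂ → ℂ := fun w => F (WithLp.toLp 2 ![0, w]) 1 with hv
    have ext2 : ∀ x y : EuclideanSpace ℂ (Fin 2), x 0 * x 1 = y 0 * y 1 → F x 1 = F y 1 → x = y := by
      intro x y h0 h1
      apply hinj
      ext i
      fin_cases i
      · simpa [hF0] using h0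
      · simpa using h1
    have hud : Differentiable ℂ u :=
      (diff_coord 1).comp (hF.comp (diff_pair differentiable_id (differentiable_const 0)))
    have hvd : Differentiable ℂ v :=
      (diff_coord 1).comp (hF.comp (diff_pair (differentiable_const 0) differentiable_id))
    have hui : Function.Injective u := by
      intro w w' h
      have := ext2 _ _ (by simp) h
      simpa using congrArg (fun x : EuclideanSpace ℂ (Fin 2) => x 0) this
    have hvi : Function.Injective v := by
      intro w w' h
      have := ext2 _ _ (by simp) h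
      simpa using congrArg (fun x : EuclideanSpace ℂ (Fin 2) => x 1) this
    have h1 := range_mem_nhds hud hui
    have h2 : Set.range v ∈ 𝓝 (u 0) := range_mem_nhds hvd hvi
    have h3 : ∀ᶠ y in 𝓝[≠] (u 0), y ∈ Set.range u ∧ y ∈ Set.range v :=
      Filter.Eventually.filter_mono nhdsWithin_le_nhds (Filter.inter_mem h1 h2)
    obtain ⟨y, ⟨⟨w, hw⟩, ⟨w', hw'⟩⟩, hy⟩ := (h3.and self_mem_nhdsWithin).exists
    have h4 := ext2 (WithLp.toLp 2 ![w, 0]) (WithLp.toLp 2 ![0, w']) (by simp) (hw.trans hw'.symm)
    have h5 : w = 0 := by simpa using congrArg (fun x : EuclideanSpace ℂ (Fin 2) => x 0) h4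
    apply hy
    rw [← hw, h5]
    rfl

end Pool.Agent.Results.MP_cc4673_an.AtomNotCoordinate
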